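import Pool.Agent.Q279.HB.Main

/-!
The average of the order of vanishing over the pairs of elements of `k(t)` of bounded height.
-/

set_option autoImplicit false
set_option linter.all false
set_option maxHeartbeats 1000000

open Polynomial Finset

namespace Pool.Agent.Q279.HB

open Pool.Agent.TH180.RT
open Pool.Agent.H341R2.Sharp (Irr mem_Irr Mon mem_Mon)

variable {k : Type} [Field k] [Fintype k] [DecidableEq k]

theorem sum_pairs (N : ℕ) (g : k[X] → k[X] → k[X] → k[X] → ℝ) (hg : ∀ m n r s, 0 ≤ g m n r s) :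
    ∑ x ∈ SF k N, g x.1.num x.1.denom x.2.num x.2.denom ≤
      ∑ n ∈ ML k N, ∑ s ∈ ML k N, ∑ ω : Om k (N + 1) (N + 1), g ω.1.1 n ω.2.1 s := by
  classical
  let φ : RatFunc k × RatFunc k → (k[X] × k[X]) × Om k (N + 1) (N + 1) := fun x =>
    ((x.1.denom, x.2.denom), if h : Le N x.1 ∧ Le N x.2 then
      (⟨x.1.num, mem_of_natDegree h.1.1⟩, ⟨x.2.num, mem_of_natDegree h.2.1⟩) else 0)
  let G : (k[X] × k[X]) × Om k (N + 1) (N + 1) → ℝ := fun y => g y.2.1.1 y.1.1 y.2.2.1 y.1.2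
  have h1 : ∑ x ∈ SF k N, g x.1.num x.1.denom x.2.num x.2.denom = ∑ x ∈ SF k N, G (φ x) := by
    refine sum_congr rfl fun x hx => ?_
    have hx1 := (mem_SF.1 hx).1
    simp only [G, φ, dif_pos hx1]
  have hinj : Set.InjOn φ (SF k N) := by
    intro x hx y hy h
    have hx1 := (mem_SF.1 (mem_coe.1 hx)).1
    have hy1 := (mem_SF.1 (mem_coe.1 hy)).1
    simp only [φ, dif_pos hx1, dif_pos hy1, Prod.mk.injEq, Subtype.mk.injEq] at h
    refine Prod.ext ?_ ?_
    · rw [← RatFunc.num_div_denom x.1, ← RatFunc.num_div_denom y.1, h.2.1, h.1.1]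
    · rw [← RatFunc.num_div_denom x.2, ← RatFunc.num_div_denom y.2, h.2.2, h.1.2]
  have h2 : (SF k N).image φ ⊆ (ML k N ×ˢ ML k N) ×ˢ univ := by
    intro y hy
    rw [mem_image] at hy
    obtain ⟨x, hx, rfl⟩ := hy
    have hx1 := (mem_SF.1 hx).1
    rw [mem_product, mem_product, mem_ML, mem_ML]
    exact ⟨⟨⟨RatFunc.monic_denom _, hx1.1.2⟩, ⟨RatFunc.monic_denom _, hx1.2.2⟩⟩, mem_univ _⟩
  rw [h1, ← sum_image hinj]
  refine (sum_le_sum_of_subset_of_nonneg h2 fun y _ _ => hg _ _ _ _).trans (le_of_eq ?_)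
  rw [sum_product, sum_product]

/-- **the average** -/
theorem avg_SF (h6 : (6 : k) ≠ 0) (N : ℕ) (r : RatFunc k × RatFunc k → ℕ)
    (hr : ∀ x ∈ SF k N, r x = 0 ∨ Bad (r x) x.1 x.2) :
    ∑ x ∈ SF k N, (r x : ℝ) ≤ 92 * (SF k N).card := by
  classical
  have hq := q_pos (k := k)
  set Y : ℕ := (N + 1) / 2 + 1 with hY
  have hY0 : 0 < Y := Nat.succ_pos _
  have hYR : (0 : ℝ) < Y := by exact_mod_cast hY0
  let W : k[X] → k[X] → k[X] → k[X] → ℝ := fun m n r s => ∑ P ∈ Irr k (Y - 1),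
      wt k Y P * (trP ((n ^ 3 * s ^ 4) * m) ((n ^ 6 * s ^ 5) * r) P : ℝ)
  have hNY : 32 * (N : ℝ) / Y ≤ 64 := by
    rw [div_le_iff₀ hYR]
    have h1 : 32 * N ≤ 64 * Y := by omega
    exact_mod_cast h1
  have h1 : ∀ x ∈ SF k N, (r x : ℝ) ≤ 84 +
      1 / 32 * W x.1.num x.1.denom x.2.num x.2.denom ^ 2 := by
    intro x hx
    have hx1 := (mem_SF.1 hx).1
    rcases hr x hx with h | h
    · rw [h, Nat.cast_zero]
      positivity
    · rw [← RatFunc.num_div_denom x.1, ← RatFunc.num_div_denom x.2] at h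
      have h2 := bad_bound h6 hY0 (RatFunc.denom_ne_zero _) (RatFunc.denom_ne_zero _)
        hx1.1.1 hx1.1.2 hx1.2.1 hx1.2.2 h
      change (r x : ℝ) ≤ 32 * N / Y + 12 + W x.1.num x.1.denom x.2.num x.2.denom at h2
      nlinarith [sq_nonneg (W x.1.num x.1.denom x.2.num x.2.denom - 16)]
  have hmom : ∀ n ∈ ML k N, ∀ s ∈ ML k N, ∑ ω : Om k (N + 1) (N + 1), W ω.1.1 n ω.2.1 s ^ 2 ≤
      (Nat.card k : ℝ) ^ (2 * N + 2) * 44 := by
    intro n hn s hs
    have h2 := moment_tr' h6 (n ^ 3 * s ^ 4) (n ^ 6 * s ^ 5) (Irr k (Y - 1)) (Y := Y - 1) (m := 1)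
      (D₁ := N + 1) (D₂ := N + 1) (fun P hP => mem_Irr.1 hP) one_pos (by omega) (by omega)
      (wt k Y) (V := 8) (by norm_num) (fun A B => var_bound h6 hY0 A B)
    have e1 : (N + 1 + (N + 1)) = 2 * N + 2 := by ring
    rw [e1, ← Nat.card_eq_fintype_card, mul_one] at h2
    refine h2.trans ?_
    apply mul_le_mul_of_nonneg_left _ (by positivity)
    have he := Real.exp_one_lt_d9
    have e2 : ((2 : ℕ).factorial : ℝ) = 2 := by norm_num [Nat.factorial]
    rw [e2, pow_one, Nat.cast_one]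
    linarith
  have h3 := sum_pairs N (fun m n r s => W m n r s ^ 2) (fun m n r s => sq_nonneg _)
  have h4 := h3.trans (sum_le_sum fun n hn => sum_le_sum fun s hs => hmom n hn s hs)
  rw [sum_const, sum_const, nsmul_eq_mul, nsmul_eq_mul] at h4
  have h5 := card_ML h6 N
  have h7 := card_SF h6 N
  have h8 : ((ML k N).card : ℝ) * (ML k N).card ≤
      (5 / 4 * (Nat.card k : ℝ) ^ N) * (5 / 4 * (Nat.card k : ℝ) ^ N) :=
    mul_le_mul h5 h5 (Nat.cast_nonneg _) (by positivity)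
  have e1 : (Nat.card k : ℝ) ^ (4 * N + 2) =
      (Nat.card k : ℝ) ^ N * (Nat.card k : ℝ) ^ N * (Nat.card k : ℝ) ^ (2 * N + 2) := by
    rw [← pow_add, ← pow_add]
    congr 1
    ring
  have h9 : ((ML k N).card : ℝ) * (((ML k N).card : ℝ) *
        ((Nat.card k : ℝ) ^ (2 * N + 2) * 44)) ≤ 25 / 16 * 44 * (Nat.card k : ℝ) ^ (4 * N + 2) := by
    calc ((ML k N).card : ℝ) * (((ML k N).card : ℝ) * ((Nat.card k : ℝ) ^ (2 * N + 2) * 44)) =
          (((ML k N).card : ℝ) * (ML k N).card) * ((Nat.card k : ℝ) ^ (2 * N + 2) * 44) := by ring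
      _ ≤ ((5 / 4 * (Nat.card k : ℝ) ^ N) * (5 / 4 * (Nat.card k : ℝ) ^ N)) *
          ((Nat.card k : ℝ) ^ (2 * N + 2) * 44) := mul_le_mul_of_nonneg_right h8 (by positivity)
      _ = _ := by
          rw [e1]
          ring
  have h10 := sum_le_sum h1
  rw [sum_add_distrib, sum_const, nsmul_eq_mul, ← mul_sum] at h10
  linarith

end Pool.Agent.Q279.HB
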