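import Pool.Agent.Q279.HB.Sym

/-!
Counting the elements of `k(t)` of bounded height.
-/

set_option autoImplicit false
set_option linter.all false
set_option maxHeartbeats 1000000

open Polynomial Finset

namespace Pool.Agent.Q279.HB

open Pool.Agent.TH180.RT
open Pool.Agent.H341R2.Sharp (Irr mem_Irr Mon mem_Mon)

theorem five_le {k : Type} [Field k] [Finite k] (h6 : (6 : k) ≠ 0) : 5 ≤ Nat.card k := by
  let _ : Fintype k := Fintype.ofFinite k
  have h1 : 1 < Nat.card k := Finite.one_lt_card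
  have h0 : ((Nat.card k : ℕ) : k) = 0 := by
    rw [Nat.card_eq_fintype_card]
    exact FiniteField.cast_card_eq_zero k
  by_contra h
  push Not at h
  have h2 : (2 : k) ≠ 0 := by
    intro h2; apply h6
    have : (6 : k) = 3 * 2 := by norm_num
    rw [this, h2, mul_zero]
  have h3 : (3 : k) ≠ 0 := by
    intro h2; apply h6
    have : (6 : k) = 2 * 3 := by norm_num
    rw [this, h2, mul_zero]
  have h4 : (4 : k) ≠ 0 := by
    have : (4 : k) = 2 * 2 := by norm_num
    rw [this]
    exact mul_ne_zero h2 h2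
  have h5 : Nat.card k = 2 ∨ Nat.card k = 3 ∨ Nat.card k = 4 := by omega
  rcases h5 with h | h | h
  · rw [h] at h0; exact h2 (by exact_mod_cast h0)
  · rw [h] at h0; exact h3 (by exact_mod_cast h0)
  · rw [h] at h0; exact h4 (by exact_mod_cast h0)

variable {k : Type} [Field k] [Fintype k] [DecidableEq k]

theorem card_Mon (n : ℕ) : (Mon k n).card = Nat.card k ^ n := by
  classical
  have h1 : Fintype.card {p : k[X] // p ∈ Mon k n} = Nat.card k ^ n := by
    have e : {p : k[X] // p ∈ Mon k n} ≃ degreeLT k n :=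
      (Equiv.subtypeEquivRight fun p => mem_Mon).trans (monicEquivDegreeLT n)
    rw [Fintype.card_congr e, card_LT, Nat.card_eq_fintype_card]
  rw [← h1, Fintype.card_coe]

open Classical in
/-- the monic multiples of a prime -/
theorem card_Mon_dvd {P : k[X]} (hP : P.Monic) {n : ℕ} (hn : P.natDegree ≤ n) :
    ((Mon k n).filter fun f => P ∣ f).card ≤ Nat.card k ^ (n - P.natDegree) := by
  rw [← card_Mon]
  refine card_le_card_of_injOn (fun f => f /ₘ P) ?_ ?_
  · intro f hf
    rw [mem_coe, mem_filter, mem_Mon] at hf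
    obtain ⟨⟨f1, f2⟩, c, rfl⟩ := hf
    rw [mem_coe, mem_Mon]
    show ((P * c) /ₘ P).Monic ∧ ((P * c) /ₘ P).natDegree = _
    rw [mul_divByMonic_cancel_left _ hP]
    have hc : c.Monic := hP.of_mul_monic_left f1
    refine ⟨hc, ?_⟩
    rw [hP.natDegree_mul hc] at f2
    omega
  · intro f hf g hg h
    rw [mem_coe, mem_filter] at hf hg
    obtain ⟨-, c, rfl⟩ := hf
    obtain ⟨-, c', rfl⟩ := hg
    simp only [mul_divByMonic_cancel_left _ hP] at h
    rw [h]

/-- an element of `k(t)` with numerator and denominator of degree at most `N` -/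
def Le (N : ℕ) {k : Type} [Field k] (x : RatFunc k) : Prop :=
  x.num.natDegree ≤ N ∧ x.denom.natDegree ≤ N

theorem fin_Le (N : ℕ) : {x : RatFunc k | Le N x}.Finite := by
  apply Set.Finite.of_finite_image (f := fun x : RatFunc k => (x.num, x.denom))
  · refine Set.Finite.subset (Set.finite_range
      fun ω : Om k (N + 1) (N + 1) => (ω.1.1, ω.2.1)) ?_
    rintro _ ⟨x, hx, rfl⟩
    exact ⟨(⟨x.num, mem_of_natDegree hx.1⟩, ⟨x.denom, mem_of_natDegree hx.2⟩), rfl⟩
  · intro x _ y _ h
    simp only [Prod.mk.injEq] at h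
    rw [← RatFunc.num_div_denom x, ← RatFunc.num_div_denom y, h.1, h.2]

/-- the elements of height at most `q ^ N` -/
noncomputable def XF (k : Type) [Field k] [Fintype k] [DecidableEq k] (N : ℕ) :
    Finset (RatFunc k) := (fin_Le (k := k) N).toFinset

theorem mem_XF {N : ℕ} {x : RatFunc k} : x ∈ XF k N ↔ Le N x := by
  unfold XF
  rw [Set.Finite.mem_toFinset]
  rfl

theorem Le_div {N : ℕ} {m n : k[X]} (hn : n ≠ 0) (hm1 : m.natDegree ≤ N) (hn1 : n.natDegree ≤ N) :
    Le N (algebraMap k[X] (RatFunc k) m / algebraMap k[X] (RatFunc k) n) := by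
  constructor
  · by_cases h : m = 0
    · rw [h]; simp
    · exact (natDegree_le_of_dvd (RatFunc.num_div_dvd m hn) h).trans hm1
  · exact (natDegree_le_of_dvd (RatFunc.denom_div_dvd m n) hn).trans hn1

theorem div_inj {m n m' n' : k[X]} (hn : n.Monic) (hn' : n'.Monic) (h : IsCoprime m n)
    (h' : IsCoprime m' n') (he : algebraMap k[X] (RatFunc k) m / algebraMap k[X] (RatFunc k) n =
      algebraMap k[X] (RatFunc k) m' / algebraMap k[X] (RatFunc k) n') : m = m' ∧ n = n' := by
  have a1 : algebraMap k[X] (RatFunc k) n ≠ 0 := RatFunc.algebraMap_ne_zero hn.ne_zero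
  have a2 : algebraMap k[X] (RatFunc k) n' ≠ 0 := RatFunc.algebraMap_ne_zero hn'.ne_zero
  rw [div_eq_div_iff a1 a2, ← map_mul, ← map_mul] at he
  have h1 : m * n' = m' * n := RatFunc.algebraMap_injective k he
  have h2 : n ∣ n' := h.symm.dvd_of_dvd_mul_left ⟨m', by rw [h1]; ring⟩
  have h3 : n' ∣ n := h'.symm.dvd_of_dvd_mul_left ⟨m, by rw [← h1]; ring⟩
  have h4 : n = n' := eq_of_monic_of_associated hn hn' (associated_of_dvd_dvd h2 h3)
  subst h4
  exact ⟨mul_right_cancel₀ hn.ne_zero h1, rfl⟩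

theorem exists_prime {m n : k[X]} (hn : n ≠ 0) (h : ¬ IsCoprime m n) :
    ∃ P : k[X], P.Monic ∧ Irreducible P ∧ P ∣ m ∧ P ∣ n := by
  classical
  have h1 : ¬ IsUnit (gcd m n) := fun hu => h ((gcd_isUnit_iff m n).1 hu)
  have h0 : gcd m n ≠ 0 := fun h0 => hn ((gcd_eq_zero_iff m n).1 h0).2
  obtain ⟨Q, hQ, hd⟩ := WfDvdMonoid.exists_irreducible_factor h1 h0
  have hQ0 := hQ.ne_zero
  have hu : IsUnit (C Q.leadingCoeff⁻¹ : k[X]) :=
    isUnit_C.2 (isUnit_iff_ne_zero.2 (inv_ne_zero (leadingCoeff_ne_zero.2 hQ0)))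
  have hass : Associated Q (Q * C Q.leadingCoeff⁻¹) := (associated_mul_unit_right _ _ hu)
  refine ⟨Q * C Q.leadingCoeff⁻¹, monic_mul_leadingCoeff_inv hQ0, hass.irreducible hQ, ?_, ?_⟩
  · exact hass.symm.dvd.trans (hd.trans (gcd_dvd_left _ _))
  · exact hass.symm.dvd.trans (hd.trans (gcd_dvd_right _ _))

theorem fifth_sum (d : ℕ) : ∑ e ∈ Icc 1 d, ((1 : ℝ) / 5) ^ e ≤ 1 / 4 := by
  have h : ∀ d : ℕ, ∑ e ∈ Icc 1 d, ((1 : ℝ) / 5) ^ e = 1 / 4 - (1 / 5) ^ d / 4 := by
    intro d
    induction d with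
    | zero => simp
    | succ d ih =>
      rw [Finset.sum_Icc_succ_top (by omega : 1 ≤ d + 1), ih, pow_succ]
      ring
  rw [h]
  have : (0 : ℝ) < (1 / 5) ^ d := by positivity
  linarith

theorem q5 (h6 : (6 : k) ≠ 0) : (5 : ℝ) ≤ Nat.card k := by exact_mod_cast five_le h6

open Classical in
/-- the lower bound for the number of elements of bounded height -/
theorem card_XF (h6 : (6 : k) ≠ 0) (N : ℕ) :
    3 / 4 * (Nat.card k : ℝ) ^ (2 * N + 1) ≤ (XF k N).card := by
  have hq := q5 h6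
  have hq0 := q_pos (k := k)
  set U : Finset (degreeLT k (N + 1) × k[X]) := univ ×ˢ Mon k N with hU
  set U1 := U.filter fun x => IsCoprime x.1.1 x.2 with hU1
  set U2 := U.filter fun x => ¬ IsCoprime x.1.1 x.2 with hU2
  have hUc : (U.card : ℝ) = (Nat.card k : ℝ) ^ (2 * N + 1) := by
    rw [hU, card_product, card_univ, card_LT, card_Mon, ← Nat.card_eq_fintype_card, ← pow_add]
    push_cast
    congr 1
    ring
  have hsum : U1.card + U2.card = U.card := card_filter_add_card_filter_not _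
  have hinj : U1.card ≤ (XF k N).card := by
    refine card_le_card_of_injOn (fun x => algebraMap k[X] (RatFunc k) x.1.1 /
      algebraMap k[X] (RatFunc k) x.2) ?_ ?_
    · intro x hx
      rw [mem_coe, hU1, mem_filter, hU, mem_product, mem_Mon] at hx
      rw [mem_coe, mem_XF]
      exact Le_div hx.1.2.1.ne_zero (natDegree_of_mem x.1.2) hx.1.2.2.le
    · intro x hx y hy h
      rw [mem_coe, hU1, mem_filter, hU, mem_product, mem_Mon] at hx hy
      obtain ⟨e1, e2⟩ := div_inj hx.1.2.1 hy.1.2.1 hx.2 hy.2 h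
      exact Prod.ext (Subtype.ext e1) e2
  have hbad : (U2.card : ℝ) ≤ 1 / 4 * (Nat.card k : ℝ) ^ (2 * N + 1) := by
    have h1 : U2 ⊆ (Icc 1 N).biUnion fun e => (Pd k e).biUnion fun P =>
        (univ.filter fun A : degreeLT k (N + 1) => P ∣ A.1) ×ˢ
          ((Mon k N).filter fun f => P ∣ f) := by
      intro x hx
      rw [hU2, mem_filter, hU, mem_product, mem_Mon] at hx
      obtain ⟨P, p1, p2, p3, p4⟩ := exists_prime hx.1.2.1.ne_zero hx.2
      rw [mem_biUnion]
      have hd : P.natDegree ≤ N :=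
        (natDegree_le_of_dvd p4 hx.1.2.1.ne_zero).trans hx.1.2.2.le
      refine ⟨P.natDegree, mem_Icc.2 ⟨p2.natDegree_pos, hd⟩, ?_⟩
      rw [mem_biUnion]
      refine ⟨P, mem_Pd.2 ⟨p1, p2, rfl⟩, ?_⟩
      rw [mem_product, mem_filter, mem_filter, mem_Mon]
      exact ⟨⟨mem_univ _, p3⟩, ⟨hx.1.2, p4⟩⟩
    have h2 := (card_le_card h1).trans card_biUnion_le
    have h3 : ∀ e ∈ Icc 1 N, (((Pd k e).biUnion fun P =>
        (univ.filter fun A : degreeLT k (N + 1) => P ∣ A.1) ×ˢ
          ((Mon k N).filter fun f => P ∣ f)).card : ℝ) ≤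
        (Nat.card k : ℝ) ^ (2 * N + 1) * (1 / 5) ^ e := by
      intro e he
      rw [mem_Icc] at he
      have h4 : ((Pd k e).biUnion fun P =>
        (univ.filter fun A : degreeLT k (N + 1) => P ∣ A.1) ×ˢ
          ((Mon k N).filter fun f => P ∣ f)).card ≤
          (Pd k e).card * Nat.card k ^ (N + 1 - e + (N - e)) := by
        refine card_biUnion_le.trans ?_
        rw [← smul_eq_mul, ← sum_const]
        refine sum_le_sum fun P hP => ?_
        obtain ⟨p1, p2, p3⟩ := mem_Pd.1 hP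
        rw [card_product, pow_add]
        apply Nat.mul_le_mul
        · exact card_mult p1 p3 (by omega)
        · have := card_Mon_dvd (k := k) p1 (n := N) (by omega)
          rwa [p3] at this
      have h5 : ((Pd k e).card : ℝ) ≤ (Nat.card k : ℝ) ^ e := by
        have h9 := card_Pd_real (k := k) e
        have h10 : (1 : ℝ) ≤ e := by exact_mod_cast he.1
        have h11 : (0 : ℝ) ≤ (Pd k e).card := Nat.cast_nonneg _
        nlinarith
      have h7 : (Nat.card k : ℝ) ^ (2 * N + 1) =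
          (Nat.card k : ℝ) ^ e * (Nat.card k : ℝ) ^ (N + 1 - e + (N - e)) *
            (Nat.card k : ℝ) ^ e := by
        rw [← pow_add, ← pow_add]
        congr 1
        omega
      have h8 : (Nat.card k : ℝ) ^ e * (1 / 5) ^ e ≥ 1 := by
        rw [← mul_pow]
        apply one_le_pow₀
        linarith
      calc (((Pd k e).biUnion fun P =>
        (univ.filter fun A : degreeLT k (N + 1) => P ∣ A.1) ×ˢ
          ((Mon k N).filter fun f => P ∣ f)).card : ℝ) ≤
            ((Pd k e).card : ℝ) * (Nat.card k : ℝ) ^ (N + 1 - e + (N - e)) := by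
            exact_mod_cast h4
        _ ≤ (Nat.card k : ℝ) ^ e * (Nat.card k : ℝ) ^ (N + 1 - e + (N - e)) :=
            mul_le_mul_of_nonneg_right h5 (by positivity)
        _ ≤ (Nat.card k : ℝ) ^ e * (Nat.card k : ℝ) ^ (N + 1 - e + (N - e)) *
            ((Nat.card k : ℝ) ^ e * (1 / 5) ^ e) := le_mul_of_one_le_right (by positivity) h8
        _ = (Nat.card k : ℝ) ^ (2 * N + 1) * (1 / 5) ^ e := by
            rw [h7]
            ring
    have h4 : (U2.card : ℝ) ≤ ∑ e ∈ Icc 1 N, (((Pd k e).biUnion fun P =>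
        (univ.filter fun A : degreeLT k (N + 1) => P ∣ A.1) ×ˢ
          ((Mon k N).filter fun f => P ∣ f)).card : ℝ) := by exact_mod_cast h2
    refine h4.trans ((sum_le_sum h3).trans ?_)
    rw [← mul_sum, mul_comm]
    exact mul_le_mul_of_nonneg_right (fifth_sum N) (by positivity)
  have h1 : (U1.card : ℝ) + U2.card = U.card := by exact_mod_cast hsum
  have h2 : (U1.card : ℝ) ≤ (XF k N).card := by exact_mod_cast hinj
  linarith

/-- the monic polynomials of degree at most `N` -/
noncomputable def ML (k : Type) [Field k] [Fintype k] [DecidableEq k] (N : ℕ) : Finset k[X] :=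
  (range (N + 1)).biUnion (Mon k)

theorem mem_ML {N : ℕ} {f : k[X]} : f ∈ ML k N ↔ f.Monic ∧ f.natDegree ≤ N := by
  unfold ML
  rw [mem_biUnion]
  constructor
  · rintro ⟨n, hn, hf⟩
    rw [mem_range] at hn
    rw [mem_Mon] at hf
    exact ⟨hf.1, by omega⟩
  · rintro ⟨h1, h2⟩
    exact ⟨f.natDegree, mem_range.2 (by omega), mem_Mon.2 ⟨h1, rfl⟩⟩

theorem card_ML (h6 : (6 : k) ≠ 0) (N : ℕ) :
    ((ML k N).card : ℝ) ≤ 5 / 4 * (Nat.card k : ℝ) ^ N := by
  have hq := q5 h6
  have hq0 := q_pos (k := k)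
  have h1 : ((ML k N).card : ℝ) ≤ ∑ n ∈ range (N + 1), (Nat.card k : ℝ) ^ n := by
    have : (ML k N).card ≤ ∑ n ∈ range (N + 1), (Mon k n).card := card_biUnion_le
    rw [sum_congr rfl fun n _ => card_Mon n] at this
    exact_mod_cast this
  refine h1.trans ?_
  clear h1
  induction N with
  | zero => norm_num
  | succ N ih =>
    rw [sum_range_succ]
    have h2 : 5 * (Nat.card k : ℝ) ^ N ≤ (Nat.card k : ℝ) ^ (N + 1) := by
      rw [pow_succ]
      have : (0 : ℝ) < (Nat.card k : ℝ) ^ N := pow_pos hq0 N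
      nlinarith
    linarith

open Classical in
/-- the upper bound for sets of pairs by sets of quadruples -/
theorem card_pairs (N : ℕ) (T : Finset (RatFunc k × RatFunc k))
    (hT : ∀ x ∈ T, Le N x.1 ∧ Le N x.2) : T.card ≤
      ∑ n ∈ ML k N, ∑ s ∈ ML k N, (univ.filter fun ω : Om k (N + 1) (N + 1) =>
        (algebraMap k[X] (RatFunc k) ω.1.1 / algebraMap k[X] (RatFunc k) n,
          algebraMap k[X] (RatFunc k) ω.2.1 / algebraMap k[X] (RatFunc k) s) ∈ T).card := by
  rw [← sum_product', card_eq_sum_card_fiberwise (f := fun x : RatFunc k × RatFunc k =>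
    (x.1.denom, x.2.denom)) (t := ML k N ×ˢ ML k N)]
  · refine sum_le_sum fun p hp => ?_
    refine card_le_card_of_injOn (fun x => if h : Le N x.1 ∧ Le N x.2 then
      (⟨x.1.num, mem_of_natDegree h.1.1⟩, ⟨x.2.num, mem_of_natDegree h.2.1⟩) else 0) ?_ ?_
    · intro x hx
      rw [mem_coe, mem_filter] at hx
      obtain ⟨hx1, hx2⟩ := hx
      rw [mem_coe, mem_filter]
      refine ⟨mem_univ _, ?_⟩
      simp only [dif_pos (hT x hx1)]
      have e1 : x.1.denom = p.1 := by rw [← hx2]
      have e2 : x.2.denom = p.2 := by rw [← hx2]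
      rw [← e1, ← e2, RatFunc.num_div_denom, RatFunc.num_div_denom]
      exact hx1
    · intro x hx y hy h
      rw [mem_coe, mem_filter] at hx hy
      simp only [dif_pos (hT x hx.1), dif_pos (hT y hy.1), Prod.mk.injEq, Subtype.mk.injEq] at h
      have hd := hx.2.trans hy.2.symm
      simp only [Prod.mk.injEq] at hd
      refine Prod.ext ?_ ?_
      · rw [← RatFunc.num_div_denom x.1, ← RatFunc.num_div_denom y.1, h.1, hd.1]
      · rw [← RatFunc.num_div_denom x.2, ← RatFunc.num_div_denom y.2, h.2, hd.2]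
  · intro x hx
    have h := hT x hx
    rw [mem_coe, mem_product, mem_ML, mem_ML]
    exact ⟨⟨RatFunc.monic_denom _, h.1.2⟩, ⟨RatFunc.monic_denom _, h.2.2⟩⟩

open Classical in
/-- the non-singular pairs -/
noncomputable def SF (k : Type) [Field k] [Fintype k] [DecidableEq k] (N : ℕ) :
    Finset (RatFunc k × RatFunc k) :=
  (XF k N ×ˢ XF k N).filter fun x => 4 * x.1 ^ 3 + 27 * x.2 ^ 2 ≠ 0

theorem mem_SF {N : ℕ} {x : RatFunc k × RatFunc k} :
    x ∈ SF k N ↔ (Le N x.1 ∧ Le N x.2) ∧ 4 * x.1 ^ 3 + 27 * x.2 ^ 2 ≠ 0 := by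
  simp only [SF, mem_filter, mem_product, mem_XF]

open Classical in
theorem card_SF (h6 : (6 : k) ≠ 0) (N : ℕ) :
    9 / 32 * (Nat.card k : ℝ) ^ (4 * N + 2) ≤ (SF k N).card := by
  have hX := card_XF h6 N
  have hq := q5 h6
  have h1 : ((XF k N ×ˢ XF k N).filter fun x => 4 * x.1 ^ 3 + 27 * x.2 ^ 2 = 0).card ≤
      2 * (XF k N).card := by
    have h1 := card_le_mul_card_image (f := fun x : RatFunc k × RatFunc k => x.1)
      ((XF k N ×ˢ XF k N).filter fun x => 4 * x.1 ^ 3 + 27 * x.2 ^ 2 = 0) 2 (by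
        intro A hA
        rw [mem_image] at hA
        obtain ⟨ω₀, hω₀, hA⟩ := hA
        rw [mem_filter] at hω₀
        have h27 : (27 : RatFunc k) ≠ 0 := by
          have h : (27 : k) ≠ 0 := by
            have : (27 : k) = 3 ^ 3 := by norm_num
            rw [this]; exact pow_ne_zero _ (n3 h6)
          have e : (27 : RatFunc k) = algebraMap k (RatFunc k) 27 := by rw [map_ofNat]
          rw [e]
          exact (_root_.map_ne_zero _).2 h
        have h5 : ((XF k N ×ˢ XF k N).filter fun x => 4 * x.1 ^ 3 + 27 * x.2 ^ 2 = 0).filter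
            (fun ω => ω.1 = A) ⊆ {(A, ω₀.2), (A, -ω₀.2)} := by
          intro ω hω
          rw [mem_filter, mem_filter] at hω
          obtain ⟨⟨-, h7⟩, h8⟩ := hω
          have h9 := hω₀.2
          rw [hA] at h9
          rw [h8] at h7
          have h10 : (27 : RatFunc k) * ((ω.2 - ω₀.2) * (ω.2 + ω₀.2)) = 0 := by
            linear_combination h7 - h9
          rw [mem_insert, mem_singleton]
          rcases mul_eq_zero.1 ((mul_eq_zero.1 h10).resolve_left h27) with h | h
          · left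
            exact Prod.ext h8 (sub_eq_zero.1 h)
          · right
            exact Prod.ext h8 (eq_neg_of_add_eq_zero_left h)
        exact (card_le_card h5).trans (card_le_two))
    refine h1.trans ?_
    apply Nat.mul_le_mul_left
    refine card_le_card ?_
    intro a ha
    rw [mem_image] at ha
    obtain ⟨x, hx, rfl⟩ := ha
    rw [mem_filter, mem_product] at hx
    exact hx.1.1
  have h2 : ((XF k N ×ˢ XF k N).filter fun x => 4 * x.1 ^ 3 + 27 * x.2 ^ 2 = 0).card +
      (SF k N).card = (XF k N).card * (XF k N).card := by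
    rw [← card_product]
    unfold SF
    exact card_filter_add_card_filter_not _
  have h4 : 4 ≤ (XF k N).card := by
    have h5 : (15 / 4 : ℝ) ≤ (XF k N).card := by
      refine le_trans ?_ hX
      have : (5 : ℝ) ≤ (Nat.card k : ℝ) ^ (2 * N + 1) := by
        calc (5 : ℝ) ≤ Nat.card k := hq
          _ = (Nat.card k : ℝ) ^ 1 := (pow_one _).symm
          _ ≤ _ := pow_le_pow_right₀ (by linarith) (by omega)
      linarith
    by_contra h
    push Not at h
    have h7 : (XF k N).card ≤ 3 := by omega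
    have h8 : ((XF k N).card : ℝ) ≤ 3 := by exact_mod_cast h7
    linarith
  have h5 : (((XF k N ×ˢ XF k N).filter fun x => 4 * x.1 ^ 3 + 27 * x.2 ^ 2 = 0).card : ℝ) ≤
      2 * (XF k N).card := by exact_mod_cast h1
  have h6' : (((XF k N ×ˢ XF k N).filter fun x => 4 * x.1 ^ 3 + 27 * x.2 ^ 2 = 0).card : ℝ) +
      (SF k N).card = (XF k N).card * (XF k N).card := by exact_mod_cast h2
  have h7 : (4 : ℝ) ≤ (XF k N).card := by exact_mod_cast h4
  have h8 : (3 / 4 * (Nat.card k : ℝ) ^ (2 * N + 1)) ^ 2 ≤ ((XF k N).card : ℝ) ^ 2 := by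
    apply pow_le_pow_left₀ _ hX
    positivity
  have h9 : (3 / 4 * (Nat.card k : ℝ) ^ (2 * N + 1)) ^ 2 =
      9 / 16 * (Nat.card k : ℝ) ^ (4 * N + 2) := by
    rw [mul_pow, ← pow_mul]
    norm_num
    ring
  nlinarith

end Pool.Agent.Q279.HB
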