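import Pool.Agent.Q279.HB.Cnt

/-!
The tails of the order of vanishing over the pairs of elements of `k(t)` of bounded height.
-/

set_option autoImplicit false
set_option linter.all false
set_option maxHeartbeats 1000000

open Polynomial Finset

namespace Pool.Agent.Q279.HB

open Pool.Agent.TH180.RT
open Pool.Agent.H341R2.Sharp (Irr mem_Irr Mon mem_Mon)

/-- `y ^ 2 = x ^ 3 + A x + B` is a minimal equation of `y ^ 2 = x ^ 3 + a x + b` -/
def IsModel {k : Type} [Field k] (a b : RatFunc k) (d : ℕ) (A B : k[X]) : Prop :=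
  IsMin d A B ∧ ∃ v : RatFunc k, v ≠ 0 ∧ a * v ^ 4 = algebraMap k[X] (RatFunc k) A ∧
    b * v ^ 6 = algebraMap k[X] (RatFunc k) B

/-- large order of vanishing -/
def Bad {k : Type} [Field k] (R : ℕ) (a b : RatFunc k) : Prop :=
  ∃ (d : ℕ) (A B : k[X]), IsModel a b d A B ∧ Big d R A B

theorem model_poly {k : Type} [Field k] {m n r s A B : k[X]} {d : ℕ} (hn : n ≠ 0) (hs : s ≠ 0)
    (h : IsModel (algebraMap k[X] (RatFunc k) m / algebraMap k[X] (RatFunc k) n)
      (algebraMap k[X] (RatFunc k) r / algebraMap k[X] (RatFunc k) s) d A B) :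
    ∃ u : k[X], u ≠ 0 ∧ u ^ 4 * A = (n ^ 3 * s ^ 4) * m ∧ u ^ 6 * B = (n ^ 6 * s ^ 5) * r := by
  classical
  obtain ⟨hmin, v, hv, h1, h2⟩ := h
  have a1 : algebraMap k[X] (RatFunc k) n ≠ 0 := RatFunc.algebraMap_ne_zero hn
  have a2 : algebraMap k[X] (RatFunc k) s ≠ 0 := RatFunc.algebraMap_ne_zero hs
  set w : RatFunc k := algebraMap k[X] (RatFunc k) (n * s) / v with hw
  have hw0 : w ≠ 0 := div_ne_zero (by rw [map_mul]; exact mul_ne_zero a1 a2) hv
  have h3 : algebraMap k[X] (RatFunc k) A * w ^ 4 =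
      algebraMap k[X] (RatFunc k) ((n ^ 3 * s ^ 4) * m) := by
    rw [← h1, hw]
    simp only [map_mul, map_pow]
    field_simp
  have h4 : algebraMap k[X] (RatFunc k) B * w ^ 6 =
      algebraMap k[X] (RatFunc k) ((n ^ 6 * s ^ 5) * r) := by
    rw [← h2, hw]
    simp only [map_mul, map_pow]
    field_simp
  have hd0 : algebraMap k[X] (RatFunc k) w.denom ≠ 0 :=
    RatFunc.algebraMap_ne_zero (RatFunc.denom_ne_zero w)
  have hcop := RatFunc.isCoprime_num_denom w
  have h5 : w.num ^ 4 * A = (n ^ 3 * s ^ 4) * m * w.denom ^ 4 := by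
    apply RatFunc.algebraMap_injective k
    rw [← RatFunc.num_div_denom w, div_pow, mul_div_assoc', div_eq_iff (pow_ne_zero _ hd0)] at h3
    rw [map_mul, map_pow, map_mul _ _ (w.denom ^ 4), map_pow _ w.denom, ← h3, mul_comm]
  have h6 : w.num ^ 6 * B = (n ^ 6 * s ^ 5) * r * w.denom ^ 6 := by
    apply RatFunc.algebraMap_injective k
    rw [← RatFunc.num_div_denom w, div_pow, mul_div_assoc', div_eq_iff (pow_ne_zero _ hd0)] at h4
    rw [map_mul, map_pow, map_mul _ _ (w.denom ^ 6), map_pow _ w.denom, ← h4, mul_comm]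
  have hu : IsUnit w.denom := by
    by_contra hu
    obtain ⟨P, hP, hd⟩ := WfDvdMonoid.exists_irreducible_factor hu (RatFunc.denom_ne_zero w)
    apply hmin.2.2.2.2 P hP
    have hPn : ¬ P ∣ w.num := by
      intro h
      exact hP.not_isUnit (hcop.isUnit_of_dvd' h hd)
    have hc : IsCoprime P w.num := hP.coprime_iff_not_dvd.2 hPn
    constructor
    · have : P ^ 4 ∣ w.num ^ 4 * A := by
        rw [h5]
        exact (pow_dvd_pow_of_dvd hd 4).mul_left _
      exact (hc.pow (m := 4) (n := 4)).dvd_of_dvd_mul_left this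
    · have : P ^ 6 ∣ w.num ^ 6 * B := by
        rw [h6]
        exact (pow_dvd_pow_of_dvd hd 6).mul_left _
      exact (hc.pow (m := 6) (n := 6)).dvd_of_dvd_mul_left this
  have h1' : w.denom = 1 := (RatFunc.monic_denom w).eq_one_of_isUnit hu
  refine ⟨w.num, ?_, ?_, ?_⟩
  · exact RatFunc.num_ne_zero hw0
  · rw [h5, h1', one_pow, mul_one]
  · rw [h6, h1', one_pow, mul_one]

theorem model_deg {k : Type} [Field k] {m n r s A B u : k[X]} {d N : ℕ} (hn : n ≠ 0) (hs : s ≠ 0)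
    (hm1 : m.natDegree ≤ N) (hn1 : n.natDegree ≤ N) (hr1 : r.natDegree ≤ N)
    (hs1 : s.natDegree ≤ N) (hmin : IsMin d A B) (hu : u ≠ 0)
    (h1 : u ^ 4 * A = (n ^ 3 * s ^ 4) * m) (h2 : u ^ 6 * B = (n ^ 6 * s ^ 5) * r) :
    u.natDegree ≤ 2 * N ∧ d ≤ 2 * N := by
  have e1 : A ≠ 0 → 4 * u.natDegree + A.natDegree ≤ 8 * N := by
    intro hA
    have h3 := congrArg natDegree h1
    rw [natDegree_mul (pow_ne_zero _ hu) hA, natDegree_pow] at h3
    rw [h3]
    calc ((n ^ 3 * s ^ 4) * m).natDegree ≤ (n ^ 3 * s ^ 4).natDegree + m.natDegree :=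
          natDegree_mul_le
      _ ≤ ((n ^ 3).natDegree + (s ^ 4).natDegree) + m.natDegree :=
          Nat.add_le_add_right natDegree_mul_le _
      _ ≤ 8 * N := by
          rw [natDegree_pow, natDegree_pow]
          omega
  have e2 : B ≠ 0 → 6 * u.natDegree + B.natDegree ≤ 12 * N := by
    intro hB
    have h3 := congrArg natDegree h2
    rw [natDegree_mul (pow_ne_zero _ hu) hB, natDegree_pow] at h3
    rw [h3]
    calc ((n ^ 6 * s ^ 5) * r).natDegree ≤ (n ^ 6 * s ^ 5).natDegree + r.natDegree :=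
          natDegree_mul_le
      _ ≤ ((n ^ 6).natDegree + (s ^ 5).natDegree) + r.natDegree :=
          Nat.add_le_add_right natDegree_mul_le _
      _ ≤ 12 * N := by
          rw [natDegree_pow, natDegree_pow]
          omega
  have e3 : A.natDegree ≤ 8 * N := by
    by_cases hA : A = 0
    · rw [hA]; simp
    · have := e1 hA
      omega
  have e4 : B.natDegree ≤ 12 * N := by
    by_cases hB : B = 0
    · rw [hB]; simp
    · have := e2 hB
      omega
  have e5 : A ≠ 0 ∨ B ≠ 0 := by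
    by_contra h
    push Not at h
    apply hmin.2.2.2.1
    rw [h.1, h.2]
    ring
  constructor
  · rcases e5 with h | h
    · have := e1 h
      omega
    · have := e2 h
      omega
  · by_contra hd
    push Not at hd
    exact hmin.2.2.1 (by omega) ⟨by omega, by omega⟩

variable {k : Type} [Field k] [Fintype k] [DecidableEq k]

/-- the bound for the order, for given `n`, `s` -/
theorem bad_bound (h6 : (6 : k) ≠ 0) {N R Y : ℕ} (hY : 0 < Y) {m n r s : k[X]} (hn : n ≠ 0)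
    (hs : s ≠ 0) (hm1 : m.natDegree ≤ N) (hn1 : n.natDegree ≤ N) (hr1 : r.natDegree ≤ N)
    (hs1 : s.natDegree ≤ N)
    (h : Bad R (algebraMap k[X] (RatFunc k) m / algebraMap k[X] (RatFunc k) n)
      (algebraMap k[X] (RatFunc k) r / algebraMap k[X] (RatFunc k) s)) :
    (R : ℝ) ≤ 32 * N / Y + 12 + ∑ P ∈ Irr k (Y - 1),
      wt k Y P * (trP ((n ^ 3 * s ^ 4) * m) ((n ^ 6 * s ^ 5) * r) P : ℝ) := by
  classical
  have hY' : (0 : ℝ) < Y := by exact_mod_cast hY
  obtain ⟨d, A, B, hmod, M, β, hM, hβ, hps, hc⟩ := h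
  obtain ⟨u, hu, h1, h2⟩ := model_poly hn hs hmod
  obtain ⟨hu1, hd⟩ := model_deg hn hs hm1 hn1 hr1 hs1 hmod.1 hu h1 h2
  have h3 := det h6 hY hβ hps
  have h4 := model_sum h6 hY hu A B
  rw [h1, h2] at h4
  have h5 : (R : ℝ) ≤ ((univ.filter fun i => β i = 1).card : ℝ) := by exact_mod_cast hc
  have h7 : (M : ℝ) / Y ≤ 24 * N / Y := by
    apply div_le_div_of_nonneg_right _ hY'.le
    have : M ≤ 24 * N := by omega
    exact_mod_cast this
  have h8 : 4 * (u.natDegree : ℝ) / Y ≤ 8 * N / Y := by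
    apply div_le_div_of_nonneg_right _ hY'.le
    have : 4 * u.natDegree ≤ 8 * N := by omega
    exact_mod_cast this
  have h9 : 24 * (N : ℝ) / Y + 8 * N / Y = 32 * N / Y := by ring
  linarith

/-- the order is bounded trivially -/
theorem bad_triv {N R : ℕ} {m n r s : k[X]} (hn : n ≠ 0)
    (hs : s ≠ 0) (hm1 : m.natDegree ≤ N) (hn1 : n.natDegree ≤ N) (hr1 : r.natDegree ≤ N)
    (hs1 : s.natDegree ≤ N)
    (h : Bad R (algebraMap k[X] (RatFunc k) m / algebraMap k[X] (RatFunc k) n)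
      (algebraMap k[X] (RatFunc k) r / algebraMap k[X] (RatFunc k) s)) : R ≤ 24 * N := by
  classical
  obtain ⟨d, A, B, hmod, M, β, hM, hβ, hps, hc⟩ := h
  obtain ⟨u, hu, h1, h2⟩ := model_poly hn hs hmod
  obtain ⟨hu1, hd⟩ := model_deg hn hs hm1 hn1 hr1 hs1 hmod.1 hu h1 h2
  have h3 : (univ.filter fun i => β i = 1).card ≤ M := by
    simpa using card_le_univ (univ.filter fun i => β i = 1)
  omega

theorem numeric' {R m : ℕ} (hm : 0 < m) (hR : 96 * m ≤ R) :
    2 * ((2 * m).factorial : ℝ) * (Real.exp 1 * 8 / (2 * m)) ^ m ≤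
      (24 / (R : ℝ)) ^ m * ((R : ℝ) / 5) ^ (2 * m) := by
  have hm' : (1 : ℝ) ≤ m := by exact_mod_cast hm
  have hm0 : (0 : ℝ) < m := by linarith
  have hR' : 96 * (m : ℝ) ≤ R := by exact_mod_cast hR
  have hR0 : (0 : ℝ) < R := by linarith
  have h1 : ((2 * m).factorial : ℝ) ≤ (2 * m : ℝ) ^ (2 * m) := by
    exact_mod_cast Nat.factorial_le_pow (2 * m)
  have he := Real.exp_one_lt_d9
  have he0 := Real.exp_pos 1
  have h2 : (2 : ℝ) ≤ 2 ^ m := by
    calc (2 : ℝ) = 2 ^ 1 := by norm_num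
      _ ≤ 2 ^ m := pow_le_pow_right₀ (by norm_num) hm
  calc 2 * ((2 * m).factorial : ℝ) * (Real.exp 1 * 8 / (2 * m)) ^ m ≤
        2 ^ m * (2 * m : ℝ) ^ (2 * m) * (Real.exp 1 * 8 / (2 * m)) ^ m := by
        gcongr
    _ = (32 * Real.exp 1 * m) ^ m := by
        rw [pow_mul, ← mul_pow, ← mul_pow]
        congr 1
        field_simp
        ring
    _ ≤ (24 / (R : ℝ) * ((R : ℝ) / 5) ^ 2) ^ m := by
        apply pow_le_pow_left₀ (by positivity)
        have e : 24 / (R : ℝ) * ((R : ℝ) / 5) ^ 2 = 24 / 25 * R := by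
          field_simp
          norm_num
        rw [e]
        nlinarith
    _ = _ := by rw [mul_pow, ← pow_mul]

open Classical in
/-- **the tail**, for given `n`, `s` -/
theorem tail_ns (h6 : (6 : k) ≠ 0) {N R : ℕ} (hR : 0 < R) {n s : k[X]} (hn : n ≠ 0)
    (hs : s ≠ 0) (hn1 : n.natDegree ≤ N) (hs1 : s.natDegree ≤ N) :
    ((univ.filter fun ω : Om k (N + 1) (N + 1) =>
      Bad R (algebraMap k[X] (RatFunc k) ω.1.1 / algebraMap k[X] (RatFunc k) n)
        (algebraMap k[X] (RatFunc k) ω.2.1 / algebraMap k[X] (RatFunc k) s)).card : ℝ) ≤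
      (24 / (R : ℝ)) ^ (R / 96) * (Nat.card k : ℝ) ^ (2 * N + 2) := by
  have hq := q_pos (k := k)
  set T := (univ.filter fun ω : Om k (N + 1) (N + 1) =>
      Bad R (algebraMap k[X] (RatFunc k) ω.1.1 / algebraMap k[X] (RatFunc k) n)
        (algebraMap k[X] (RatFunc k) ω.2.1 / algebraMap k[X] (RatFunc k) s)) with hT
  have hcard : (T.card : ℝ) ≤ (Nat.card k : ℝ) ^ (2 * N + 2) := by
    have h1 := card_le_univ T
    rw [Fintype.card_prod, card_LT, ← pow_add,
      show N + 1 + (N + 1) = 2 * N + 2 by ring, ← Nat.card_eq_fintype_card] at h1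
    exact_mod_cast h1
  by_cases hsmall : R < 96
  · refine hcard.trans ?_
    rw [Nat.div_eq_of_lt hsmall, pow_zero, one_mul]
  push Not at hsmall
  have hR' : (96 : ℝ) ≤ R := by exact_mod_cast hsmall
  by_cases hbig : 24 * N < R
  · have h0 : T = ∅ := by
      rw [hT, filter_eq_empty_iff]
      rintro ω - h
      have := bad_triv hn hs (natDegree_of_mem ω.1.2) hn1 (natDegree_of_mem ω.2.2) hs1 h
      omega
    rw [h0]
    simp only [card_empty, Nat.cast_zero]
    positivity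
  push Not at hbig
  have hN : 0 < N := by omega
  set m : ℕ := R / 96 with hm
  have hm1 : 96 * m ≤ R := Nat.mul_div_le R 96
  have hm0 : 0 < m := Nat.div_pos (by omega) (by norm_num)
  set Y : ℕ := (48 * N + R - 1) / R with hY
  have hY0 : 0 < Y := Nat.div_pos (by omega) hR
  have hY1 : 48 * N ≤ Y * R := by
    have h1 : 48 * N + R - 1 < (Y + 1) * R := by
      rw [hY, mul_comm ((48 * N + R - 1) / R + 1) R]
      exact Nat.lt_mul_div_succ _ hR
    have e : (Y + 1) * R = Y * R + R := by ring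
    rw [e] at h1
    omega
  have hY2 : (Y - 1) * R ≤ 48 * N := by
    have h1 : Y * R ≤ 48 * N + R - 1 := Nat.div_mul_le_self _ _
    rw [Nat.sub_mul, one_mul]
    omega
  have hY3 : 2 * m * (Y - 1) ≤ N := by
    have h1 : 48 * (2 * m * (Y - 1)) ≤ 48 * N := by
      calc 48 * (2 * m * (Y - 1)) = (Y - 1) * (96 * m) := by ring
        _ ≤ (Y - 1) * R := by gcongr
        _ ≤ 48 * N := hY2
    omega
  have hmom := moment_tr' h6 (n ^ 3 * s ^ 4) (n ^ 6 * s ^ 5) (Irr k (Y - 1)) (Y := Y - 1) (m := m)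
    (D₁ := N + 1) (D₂ := N + 1) (fun P hP => mem_Irr.1 hP) hm0 (by omega) (by omega) (wt k Y)
    (V := 8) (by norm_num) (fun A B => var_bound h6 hY0 A B)
  have hYR : (0 : ℝ) < Y := by exact_mod_cast hY0
  have hNY : 32 * (N : ℝ) / Y ≤ 2 * R / 3 := by
    rw [div_le_div_iff₀ hYR (by norm_num)]
    have h1 : 32 * N * 3 ≤ 2 * R * Y := by
      calc 32 * N * 3 = 2 * (48 * N) := by ring
        _ ≤ 2 * (Y * R) := by gcongr
        _ = 2 * R * Y := by ring
    exact_mod_cast h1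
  have hmark : (T.card : ℝ) * ((R : ℝ) / 5) ^ (2 * m) ≤
      ∑ ω : Om k (N + 1) (N + 1), (∑ P ∈ Irr k (Y - 1),
        wt k Y P * trP ((n ^ 3 * s ^ 4) * ω.1.1) ((n ^ 6 * s ^ 5) * ω.2.1) P) ^ (2 * m) := by
    rw [← nsmul_eq_mul, ← sum_const]
    refine (sum_le_sum fun ω hω => ?_).trans (sum_le_sum_of_subset_of_nonneg
      (filter_subset _ _) fun ω _ _ => ?_)
    · rw [hT, mem_filter] at hω
      have h1 := bad_bound h6 hY0 hn hs (natDegree_of_mem ω.1.2) hn1 (natDegree_of_mem ω.2.2) hs1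
        hω.2
      apply pow_le_pow_left₀ (by positivity)
      linarith
    · rw [pow_mul]
      positivity
  have hnum := numeric' hm0 hm1
  have e1 : (N + 1 + (N + 1)) = 2 * N + 2 := by ring
  rw [e1, ← Nat.card_eq_fintype_card] at hmom
  have h1 := hmark.trans hmom
  have h2 : (T.card : ℝ) * ((R : ℝ) / 5) ^ (2 * m) ≤
      ((24 / (R : ℝ)) ^ m * (Nat.card k : ℝ) ^ (2 * N + 2)) * ((R : ℝ) / 5) ^ (2 * m) := by
    refine h1.trans ?_
    calc (Nat.card k : ℝ) ^ (2 * N + 2) *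
          (2 * ((2 * m).factorial : ℝ) * (Real.exp 1 * 8 / (2 * m)) ^ m) ≤
          (Nat.card k : ℝ) ^ (2 * N + 2) * ((24 / (R : ℝ)) ^ m * ((R : ℝ) / 5) ^ (2 * m)) :=
          mul_le_mul_of_nonneg_left hnum (by positivity)
      _ = _ := by ring
  exact le_of_mul_le_mul_right h2 (by positivity)

open Classical in
/-- **the tail** over the pairs of bounded height -/
theorem tail_SF (h6 : (6 : k) ≠ 0) (N : ℕ) {R : ℕ} (hR : 0 < R) :
    (((SF k N).filter fun x => Bad R x.1 x.2).card : ℝ) ≤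
      6 * (24 / (R : ℝ)) ^ (R / 96) * ((SF k N).card : ℝ) := by
  have hq := q_pos (k := k)
  set T := (SF k N).filter fun x => Bad R x.1 x.2 with hT
  have h1 := card_pairs N T (fun x hx => by
    rw [hT, mem_filter, mem_SF] at hx
    exact hx.1.1)
  have h2 : ∀ n ∈ ML k N, ∀ s ∈ ML k N, ((univ.filter fun ω : Om k (N + 1) (N + 1) =>
        (algebraMap k[X] (RatFunc k) ω.1.1 / algebraMap k[X] (RatFunc k) n,
          algebraMap k[X] (RatFunc k) ω.2.1 / algebraMap k[X] (RatFunc k) s) ∈ T).card : ℝ) ≤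
      (24 / (R : ℝ)) ^ (R / 96) * (Nat.card k : ℝ) ^ (2 * N + 2) := by
    intro n hn s hs
    rw [mem_ML] at hn hs
    refine le_trans ?_ (tail_ns h6 hR hn.1.ne_zero hs.1.ne_zero hn.2 hs.2)
    have : (univ.filter fun ω : Om k (N + 1) (N + 1) =>
        (algebraMap k[X] (RatFunc k) ω.1.1 / algebraMap k[X] (RatFunc k) n,
          algebraMap k[X] (RatFunc k) ω.2.1 / algebraMap k[X] (RatFunc k) s) ∈ T) ⊆
        (univ.filter fun ω : Om k (N + 1) (N + 1) =>
      Bad R (algebraMap k[X] (RatFunc k) ω.1.1 / algebraMap k[X] (RatFunc k) n)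
        (algebraMap k[X] (RatFunc k) ω.2.1 / algebraMap k[X] (RatFunc k) s)) := by
      intro ω hω
      rw [mem_filter] at hω ⊢
      refine ⟨mem_univ _, ?_⟩
      have := hω.2
      rw [hT, mem_filter] at this
      exact this.2
    exact_mod_cast card_le_card this
  have h3 : (T.card : ℝ) ≤ ∑ n ∈ ML k N, ∑ s ∈ ML k N,
      (24 / (R : ℝ)) ^ (R / 96) * (Nat.card k : ℝ) ^ (2 * N + 2) := by
    refine le_trans ?_ (sum_le_sum fun n hn => sum_le_sum fun s hs => h2 n hn s hs)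
    exact_mod_cast h1
  rw [sum_const, sum_const, nsmul_eq_mul, nsmul_eq_mul] at h3
  have h4 := card_ML h6 N
  have h5 := card_SF h6 N
  have ht : (0 : ℝ) ≤ (24 / (R : ℝ)) ^ (R / 96) := by positivity
  have h7 : ((ML k N).card : ℝ) * (ML k N).card ≤
      (5 / 4 * (Nat.card k : ℝ) ^ N) * (5 / 4 * (Nat.card k : ℝ) ^ N) :=
    mul_le_mul h4 h4 (Nat.cast_nonneg _) (by positivity)
  have e1 : (Nat.card k : ℝ) ^ (4 * N + 2) =
      (Nat.card k : ℝ) ^ N * (Nat.card k : ℝ) ^ N * (Nat.card k : ℝ) ^ (2 * N + 2) := by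
    rw [← pow_add, ← pow_add]
    congr 1
    ring
  have hp : (0 : ℝ) ≤ (Nat.card k : ℝ) ^ (4 * N + 2) := by positivity
  calc (T.card : ℝ) ≤ ((ML k N).card : ℝ) * (((ML k N).card : ℝ) *
        ((24 / (R : ℝ)) ^ (R / 96) * (Nat.card k : ℝ) ^ (2 * N + 2))) := h3
    _ = (((ML k N).card : ℝ) * (ML k N).card) *
        ((24 / (R : ℝ)) ^ (R / 96) * (Nat.card k : ℝ) ^ (2 * N + 2)) := by ring
    _ ≤ ((5 / 4 * (Nat.card k : ℝ) ^ N) * (5 / 4 * (Nat.card k : ℝ) ^ N)) *
        ((24 / (R : ℝ)) ^ (R / 96) * (Nat.card k : ℝ) ^ (2 * N + 2)) :=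
        mul_le_mul_of_nonneg_right h7 (by positivity)
    _ = (24 / (R : ℝ)) ^ (R / 96) * (25 / 16 * (Nat.card k : ℝ) ^ (4 * N + 2)) := by
        rw [e1]
        ring
    _ ≤ (24 / (R : ℝ)) ^ (R / 96) * (6 * (SF k N).card) := by
        apply mul_le_mul_of_nonneg_left _ ht
        linarith
    _ = _ := by ring

end Pool.Agent.Q279.HB
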