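import Pool.Agent.TH180.RT.Mom

/-!
Moments of sums of traces of the curves `y ^ 2 = x ^ 3 + c₁ A x + c₂ B`, and the change of model.
-/

set_option autoImplicit false
set_option linter.all false
set_option maxHeartbeats 1000000

open Polynomial Finset

namespace Pool.Agent.Q279.HB

open Pool.Agent.TH180.RT
open Pool.Agent.H341R2.Sharp (Irr mem_Irr)

variable {k : Type} [Field k] [Fintype k] [DecidableEq k]

theorem sym_main' (h6 : (6 : k) ≠ 0) (c₁ c₂ : k[X]) (S : Finset k[X]) {Y n D₁ D₂ : ℕ}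
    (hS : ∀ P ∈ S, P.Monic ∧ Irreducible P ∧ P.natDegree ≤ Y) (h1 : n * Y ≤ D₁) (h2 : n * Y ≤ D₂)
    (w : k[X] → ℝ) (ε : S → Bool) :
    ∑ ω : Om k D₁ D₂, (∑ P : S, sg (ε P) * (w P * trP (c₁ * ω.1.1) (c₂ * ω.2.1) P)) ^ n =
      ∑ ω : Om k D₁ D₂, (∑ P : S, w P * trP (c₁ * ω.1.1) (c₂ * ω.2.1) P.1) ^ n := by
  classical
  simp_rw [Fintype.sum_pow]
  rw [sum_comm, sum_comm (s := (univ : Finset (Om k D₁ D₂)))]
  refine sum_congr rfl fun p _ => ?_
  set M : k[X] := ∏ i, (p i).1 with hM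
  have hmon : M.Monic := monic_prod_of_monic _ _ fun i _ => (hS _ (p i).2).1
  have hdeg : M.natDegree ≤ n * Y := by
    rw [hM, natDegree_prod_of_monic _ _ fun i _ => (hS _ (p i).2).1]
    calc ∑ i, ((p i).1).natDegree ≤ ∑ i : Fin n, Y := sum_le_sum fun i _ => (hS _ (p i).2).2.2
      _ = n * Y := by simp
  obtain ⟨l, hl⟩ := exists_l h6 S (fun P hP => ⟨(hS P hP).1, (hS P hP).2.1⟩)
    (fun P => if h : P ∈ S then ε ⟨P, h⟩ else true)
  have hcop : IsCoprime l M := by
    rw [hM]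
    refine IsCoprime.prod_right fun i _ => ?_
    exact ((hS _ (p i).2).2.1.coprime_iff_not_dvd.2 (hl _ (p i).2).1).symm
  have key := sym_class hmon (hdeg.trans h1) (hdeg.trans h2) hcop
    (fun A B => ∏ i, w (p i) * trP (c₁ * A) (c₂ * B) (p i).1) (by
      intro A A' B B' hA hB
      refine prod_congr rfl fun i _ => ?_
      have hd : (p i).1 ∣ M := dvd_prod_of_mem _ (mem_univ i)
      rw [trP_congr (A := c₁ * A) (B := c₂ * B) (A' := c₁ * A') (B' := c₂ * B')
        (by rw [← mul_sub]; exact (hd.trans hA).mul_left _)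
        (by rw [← mul_sub]; exact (hd.trans hB).mul_left _)])
  rw [← key]
  refine sum_congr rfl fun ω _ => prod_congr rfl fun i _ => ?_
  have e1 : c₁ * (l ^ 2 * ω.1.1) = l ^ 2 * (c₁ * ω.1.1) := by ring
  have e2 : c₂ * (l ^ 3 * ω.2.1) = l ^ 3 * (c₂ * ω.2.1) := by ring
  rw [e1, e2, trP_twist h6 (hS _ (p i).2).2.1 (hl _ (p i).2).1]
  have h3 := (hl _ (p i).2).2
  rw [dif_pos (p i).2] at h3
  rw [h3]
  unfold sg
  cases ε (p i) <;> simp

/-- the moment bound for weighted sums of traces -/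
theorem moment_tr' (h6 : (6 : k) ≠ 0) (c₁ c₂ : k[X]) (S : Finset k[X]) {Y m D₁ D₂ : ℕ}
    (hS : ∀ P ∈ S, P.Monic ∧ Irreducible P ∧ P.natDegree ≤ Y) (hm : 0 < m)
    (h1 : 2 * m * Y ≤ D₁) (h2 : 2 * m * Y ≤ D₂) (w : k[X] → ℝ) {V : ℝ} (hV : 0 < V)
    (hw : ∀ A B : k[X], ∑ P ∈ S, (w P * trP A B P) ^ 2 ≤ V) :
    ∑ ω : Om k D₁ D₂, (∑ P ∈ S, w P * trP (c₁ * ω.1.1) (c₂ * ω.2.1) P) ^ (2 * m) ≤
      (Fintype.card k : ℝ) ^ (D₁ + D₂) *
        (2 * (2 * m).factorial * (Real.exp 1 * V / (2 * m)) ^ m) := by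
  classical
  have key := moment (Ω := Om k D₁ D₂) (ι := S)
    (fun P ω => w P * trP (c₁ * ω.1.1) (c₂ * ω.2.1) P.1) hV
    (fun ω => by
      rw [sum_coe_sort S fun P => (w P * (trP (c₁ * ω.1.1) (c₂ * ω.2.1) P : ℝ)) ^ 2]
      exact hw _ _) hm (fun ε => sym_main' h6 c₁ c₂ S hS h1 h2 w ε)
  have e1 : (Fintype.card (Om k D₁ D₂) : ℝ) = (Fintype.card k : ℝ) ^ (D₁ + D₂) := by
    rw [Fintype.card_prod, card_LT, card_LT]
    push_cast
    rw [pow_add]
  rw [e1] at key
  refine le_trans (le_of_eq ?_) key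
  refine sum_congr rfl fun ω _ => ?_
  rw [sum_coe_sort S fun P => w P * (trP (c₁ * ω.1.1) (c₂ * ω.2.1) P : ℝ)]

/-- the cuspidal cubic has trace zero -/
theorem trP_zero (h6 : (6 : k) ≠ 0) {P : k[X]} (hP : Irreducible P) : trP 0 0 P = 0 := by
  obtain ⟨l, hl, hc⟩ := exists_chi h6 hP false
  have h1 := trP_twist h6 hP hl 0 0
  rw [mul_zero, mul_zero, hc l (by simp)] at h1
  simp only [Bool.false_eq_true, if_false] at h1
  omega

/-- the change of model at a prime not dividing `u` -/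
theorem trP_unit (h6 : (6 : k) ≠ 0) {P : k[X]} (hP : Irreducible P) {u : k[X]} (hu : ¬ P ∣ u)
    (A B : k[X]) : trP (u ^ 4 * A) (u ^ 6 * B) P = trP A B P := by
  have hu2 : ¬ P ∣ u ^ 2 := fun h => hu (hP.prime.dvd_of_dvd_pow h)
  have h1 := trP_twist h6 hP hu2 A B
  have e1 : (u ^ 2) ^ 2 * A = u ^ 4 * A := by ring
  have e2 : (u ^ 2) ^ 3 * B = u ^ 6 * B := by ring
  have e3 : chi (u ^ 2) P = 1 := by
    classical
    unfold chi
    rw [dif_pos hP]
    have : Fact (Irreducible P) := ⟨hP⟩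
    have := finAR hP.ne_zero
    let _ : Fintype (AdjoinRoot P) := Fintype.ofFinite _
    rw [map_pow]
    apply quadraticChar_sq_one'
    rw [Ne, AdjoinRoot.mk_eq_zero]
    exact hu
  rw [e1, e2, e3, one_mul] at h1
  exact h1

/-- the change of model at a prime dividing `u` -/
theorem trP_dvd (h6 : (6 : k) ≠ 0) {P : k[X]} (hP : Irreducible P) {u : k[X]} (hu : P ∣ u)
    (A B : k[X]) : trP (u ^ 4 * A) (u ^ 6 * B) P = 0 := by
  rw [← trP_zero h6 hP]
  apply trP_congr
  · rw [sub_zero]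
    exact (dvd_pow hu (by norm_num)).mul_right _
  · rw [sub_zero]
    exact (dvd_pow hu (by norm_num)).mul_right _

open Classical in
theorem sum_dvd {u : k[X]} (hu : u ≠ 0) (Y : ℕ) :
    ∑ P ∈ (Irr k Y).filter (fun P => P ∣ u), P.natDegree ≤ u.natDegree := by
  have hdvd : ∏ P ∈ (Irr k Y).filter (fun P => P ∣ u), P ∣ u := by
    refine Finset.prod_dvd_of_coprime ?_ ?_
    · intro P hP Q hQ hne
      rw [mem_coe, mem_filter, mem_Irr] at hP hQ
      refine (hP.1.2.1.coprime_iff_not_dvd.2 fun h => hne ?_)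
      exact eq_of_monic_of_associated hP.1.1 hQ.1.1 (hP.1.2.1.associated_of_dvd hQ.1.2.1 h)
    · intro P hP
      rw [mem_filter] at hP
      exact hP.2
  have h1 := natDegree_le_of_dvd hdvd hu
  rw [natDegree_prod_of_monic _ _ fun P hP => by
    rw [mem_filter, mem_Irr] at hP
    exact hP.1.1] at h1
  exact h1

/-- the sums of the traces of two models -/
theorem model_sum (h6 : (6 : k) ≠ 0) {Y : ℕ} (hY : 0 < Y) {u : k[X]} (hu : u ≠ 0) (A B : k[X]) :
    ∑ P ∈ Irr k (Y - 1), wt k Y P * (trP A B P : ℝ) ≤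
      ∑ P ∈ Irr k (Y - 1), wt k Y P * (trP (u ^ 4 * A) (u ^ 6 * B) P : ℝ) +
        4 * u.natDegree / Y := by
  classical
  have hY' : (0 : ℝ) < Y := by exact_mod_cast hY
  have hq := q_pos (k := k)
  have h1 : ∀ P ∈ Irr k (Y - 1), wt k Y P * (trP A B P : ℝ) ≤
      wt k Y P * (trP (u ^ 4 * A) (u ^ 6 * B) P : ℝ) +
        if P ∣ u then 4 / (Y : ℝ) * P.natDegree else 0 := by
    intro P hP
    rw [mem_Irr] at hP
    obtain ⟨p1, p2, p3⟩ := hP
    by_cases h : P ∣ u
    · rw [if_pos h, trP_dvd h6 p2 h, Int.cast_zero, mul_zero, zero_add]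
      have h3 := trP_bound h6 p2 A B
      have h4 : |wt k Y P| ≤ 2 / (Y : ℝ) * P.natDegree / (Nat.card k : ℝ) ^ P.natDegree := by
        unfold wt
        rw [abs_neg, abs_of_nonneg]
        · apply div_le_div_of_nonneg_right _ (by positivity)
          apply mul_le_mul_of_nonneg_right _ (Nat.cast_nonneg _)
          have : ((Y : ℝ) - P.natDegree) ≤ Y := by
            have : (0 : ℝ) ≤ P.natDegree := Nat.cast_nonneg _
            linarith
          calc 2 / (Y : ℝ) ^ 2 * ((Y : ℝ) - P.natDegree) ≤ 2 / (Y : ℝ) ^ 2 * Y :=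
                mul_le_mul_of_nonneg_left this (by positivity)
            _ = 2 / (Y : ℝ) := by field_simp
        · have : (0 : ℝ) ≤ (Y : ℝ) - P.natDegree := by
            have : (P.natDegree : ℝ) ≤ Y := by exact_mod_cast (by omega : P.natDegree ≤ Y)
            linarith
          positivity
      have h5 : |wt k Y P * trP A B P| ≤
          2 / (Y : ℝ) * P.natDegree / (Nat.card k : ℝ) ^ P.natDegree *
            (2 * √(Nat.card k) ^ P.natDegree) := by
        rw [abs_mul]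
        exact mul_le_mul h4 h3 (abs_nonneg _) (by positivity)
      refine (le_abs_self _).trans (h5.trans ?_)
      have h7 : √(Nat.card k : ℝ) ^ P.natDegree ≤ (Nat.card k : ℝ) ^ P.natDegree := by
        rw [← sq_pow]
        nlinarith [one_le_pow₀ (sqrt_one (k := k)) (n := P.natDegree)]
      have h8 : (0 : ℝ) < (Nat.card k : ℝ) ^ P.natDegree := pow_pos hq _
      calc 2 / (Y : ℝ) * P.natDegree / (Nat.card k : ℝ) ^ P.natDegree *
            (2 * √(Nat.card k) ^ P.natDegree) ≤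
            2 / (Y : ℝ) * P.natDegree / (Nat.card k : ℝ) ^ P.natDegree *
            (2 * (Nat.card k : ℝ) ^ P.natDegree) := by
            apply mul_le_mul_of_nonneg_left _ (by positivity)
            linarith
        _ = 4 / (Y : ℝ) * P.natDegree := by
            field_simp
            ring
    · rw [if_neg h, trP_unit h6 p2 h, add_zero]
  refine (sum_le_sum h1).trans ?_
  rw [sum_add_distrib, ← sum_filter, ← mul_sum]
  have h2 : ((∑ P ∈ (Irr k (Y - 1)).filter (fun P => P ∣ u), P.natDegree : ℕ) : ℝ) ≤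
      u.natDegree := by exact_mod_cast sum_dvd hu (Y - 1)
  rw [Nat.cast_sum] at h2
  have h3 : 4 / (Y : ℝ) * ∑ P ∈ (Irr k (Y - 1)).filter (fun P => P ∣ u), (P.natDegree : ℝ) ≤
      4 / (Y : ℝ) * u.natDegree := mul_le_mul_of_nonneg_left h2 (by positivity)
  have h4 : 4 / (Y : ℝ) * (u.natDegree : ℝ) = 4 * u.natDegree / Y := by ring
  linarith

end Pool.Agent.Q279.HB
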